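import Mathlib

set_option autoImplicit false
open Finset Filter

namespace Pool.Agent.H.MP_32446a_an

def G (β N : ℕ) : ℕ := β * 2 ^ (4 * β ^ 3 + 2 * β * N + β ^ 2)

def L : ℕ → ℕ
  | 0 => 0
  | β + 1 => L β + (β + 1) * (G β (8 ^ L β) + 1)

theorem L_mono : StrictMono L := strictMono_nat_of_lt_succ fun β => by simp [L]

def b (l : ℕ) : ℕ := Nat.findGreatest (fun β => L β ≤ l) l

theorem le_b {β l : ℕ} : β ≤ b l ↔ L β ≤ l :=
  ⟨fun h => (L_mono.monotone h).trans (Nat.findGreatest_spec (P := fun β => L β ≤ l) (Nat.zero_le l)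
    (Nat.zero_le l)), fun h => Nat.le_findGreatest (L_mono.le_apply.trans h) h⟩

theorem b_mono : Monotone b := fun _ _ h => le_b.2 ((le_b.1 le_rfl).trans h)
theorem b_le (l : ℕ) : b l ≤ l := Nat.findGreatest_le l

def κ (n : ℕ) : ℕ := Nat.log 8 (2 * n)
theorem κ_mono : Monotone κ := fun _ _ h => Nat.log_mono_right (by omega)
def a0 (n : ℕ) : ℕ := ∑ i ∈ range n, b (κ i)
def a (j : ℤ) : ℤ := a0 j.toNat - a0 (-j).toNat
def μ (l : ℕ) : ℤ := b l * 8 ^ l + 4 * b l ^ 3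

theorem a_neg (j : ℤ) : a (-j) = -a j := by simp [a]
theorem a_nat (n : ℕ) : a n = a0 n := by simp [a, a0]

theorem a_succ (j : ℤ) : a (j + 1) - a j = b (κ (max j (-j - 1)).toNat) := by
  rcases j with n | n
  · rw [Int.ofNat_eq_natCast, ← Nat.cast_succ, a_nat, a_nat, max_eq_left (by omega)]; simp [a0, sum_range_succ]
  · rw [show Int.negSucc n + 1 = -(n : ℤ) by omega, Int.negSucc_eq, a_neg, a_neg, ← Nat.cast_succ, a_nat,
      a_nat, max_eq_right (by omega)]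
    simp [a0, sum_range_succ]

theorem a_mono : Monotone a := monotone_int_of_le_succ fun j => by have := a_succ j; omega

theorem a_top : Tendsto (fun j => a (j + 1) - a j) cofinite atTop := tendsto_atTop.2 fun β => by
  refine (Set.finite_Icc (-(8 ^ L β.toNat : ℕ) - 1 : ℤ) (8 ^ L β.toNat : ℕ)).subset fun j h => ?_
  by_contra c
  have : β.toNat ≤ b (κ (max j (-j - 1)).toNat) :=
    le_b.2 (Nat.le_log_of_pow_le (by omega) (by simp only [Set.mem_Icc] at c; omega))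
  have := a_succ j
  exact h (show β ≤ _ by omega)

theorem a_le {n : ℤ} (h : 0 ≤ n) : a n ≤ b (κ n.toNat) * n := by
  lift n to ℕ using h
  have := sum_le_card_nsmul (range n) (fun i => b (κ i)) (b (κ n)) fun i h =>
    b_mono (κ_mono (mem_range.1 h).le)
  rw [a_nat, a0, Int.toNat_natCast, mul_comm]; simp only [card_range, smul_eq_mul] at this
  exact_mod_cast this

theorem le_a (β : ℕ) {n : ℤ} (h : 0 ≤ n) : β * (n - 8 ^ L β) ≤ a n := by
  lift n to ℕ using h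
  rw [a_nat]
  rcases le_total n (8 ^ L β) with h | h
  · exact (mul_nonpos_of_nonneg_of_nonpos β.cast_nonneg (sub_nonpos.2 (by exact_mod_cast h))).trans
      (Nat.cast_nonneg _)
  · have := (card_nsmul_le_sum (Ico (8 ^ L β) n) (fun i => b (κ i)) β fun i h =>
      le_b.2 (Nat.le_log_of_pow_le (by omega) (by have := (mem_Ico.1 h).1; omega))).trans
      (sum_le_sum_of_subset (t := range n) fun i h => mem_range.2 (mem_Ico.1 h).2)
    rw [Nat.card_Ico, smul_eq_mul, mul_comm] at this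
    zify [h] at this; simpa [a0] using this

theorem p8 (k : ℕ) : (2 * k + 1 : ℤ) ≤ 8 ^ k := by
  induction k with
  | zero => simp
  | succ k ih => rw [pow_succ]; push_cast; omega

theorem p8' {k l : ℕ} (h : k < l) : (8 * 8 ^ k : ℤ) ≤ 8 ^ l ∧ (8 * l : ℤ) ≤ 8 ^ l := by
  obtain ⟨l, rfl⟩ := Nat.exists_eq_add_one.2 (Nat.zero_lt_of_lt h)
  have : (8 : ℤ) ^ k ≤ 8 ^ l := pow_le_pow_right₀ (by omega) (by omega)
  have := p8 l
  rw [pow_succ]; push_cast; omega

theorem κ_eq {k : ℕ} {n : ℤ} (h : 8 ^ k ≤ 2 * n) (h' : 2 * n < 8 * 8 ^ k) : κ n.toNat = k := by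
  have : (0 : ℤ) < 8 ^ k := by positivity
  lift n to ℕ using (by omega)
  exact Nat.log_eq_of_pow_le_of_lt_pow (by exact_mod_cast h) (by rw [pow_succ']; exact_mod_cast h')

theorem e0 {k : ℕ} {j : ℤ} (h : |j| ≤ b k) : κ (j + 8 ^ k).toNat = k ∧
    a (j + 8 ^ k) - μ k ≤ b k ^ 2 - 4 * b k ^ 3 := by
  have := p8 k; have := b_le k
  rw [abs_le] at h
  have e : κ (j + 8 ^ k).toNat = k := κ_eq (by omega) (by omega)
  have := a_le (n := j + 8 ^ k) (by omega)
  rw [e] at this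
  exact ⟨e, by rw [μ]; nlinarith⟩

theorem e1 {k l : ℕ} {j : ℤ} (h : |j| ≤ b k) (hk : k < l) : μ l - μ k + a (j + 8 ^ k - 8 ^ l) ≤
    (4 * b l ^ 3 + 2 * b l * 8 ^ L (b l) + b l ^ 2 : ℕ) := by
  have := p8' hk; have := b_le k
  have m := b_mono hk.le
  rw [abs_le] at h
  have := le_a (b l) (n := -(j + 8 ^ k - 8 ^ l)) (by omega)
  rw [a_neg] at this
  have j1 : (b l : ℤ) * j ≤ b l * b l := mul_le_mul_of_nonneg_left (by omega) (by positivity)
  simp only [μ]; push_cast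
  rcases m.eq_or_lt with e | e
  · rw [e]; nlinarith [show (0 : ℤ) ≤ b l * 8 ^ L (b l) by positivity, show (0 : ℤ) ≤ b l ^ 3 by positivity]
  · have : (8 : ℤ) ^ k ≤ 8 ^ L (b l) := pow_le_pow_right₀ (by omega) (not_le.1 (mt le_b.2 e.not_ge)).le
    nlinarith [mul_le_mul_of_nonneg_left this (b l).cast_nonneg, show (0 : ℤ) ≤ b k * 8 ^ k by positivity,
      show (0 : ℤ) ≤ b k ^ 3 by positivity]

theorem e2 {k l : ℕ} {j : ℤ} (h : |j| ≤ b k) (hk : l < k) : μ l - μ k + a (j + 8 ^ k - 8 ^ l) ≤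
    4 * b l ^ 3 - 4 * b k ^ 3 + b k ^ 2 := by
  have := p8' hk; have := b_le k
  have m : (b l : ℤ) ≤ b k := by exact_mod_cast b_mono hk.le
  rw [abs_le] at h
  have := a_le (n := j + 8 ^ k - 8 ^ l) (by omega)
  rw [κ_eq (k := k) (by omega) (by have : (0 : ℤ) < 8 ^ l := by positivity
                                   omega)] at this
  simp only [μ]
  nlinarith [mul_le_mul_of_nonneg_right m (show (0 : ℤ) ≤ 8 ^ l by positivity),
    mul_le_mul_of_nonneg_left h.2 (b k).cast_nonneg]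

theorem sid {k l k' l' : ℕ} {d : ℤ} (h1 : k ≠ l) (h2 : k' ≠ l') (h3 : l ≠ l') (h : |d| ≤ 2 * l) (h' : |d| ≤ 2 * l') :
    8 ^ k - 8 ^ l + d ≠ 8 ^ k' - 8 ^ l' := by
  have p : ∀ x y : ℕ, (x < y ∧ (8 * 8 ^ x : ℤ) ≤ 8 ^ y) ∨ (x = y ∧ (8 : ℤ) ^ x = 8 ^ y) ∨
      (y < x ∧ (8 * 8 ^ y : ℤ) ≤ 8 ^ x) := fun x y => by
    rcases lt_trichotomy x y with e | e | e
    exacts [.inl ⟨e, (p8' e).1⟩, .inr (.inl ⟨e, e ▸ rfl⟩), .inr (.inr ⟨e, (p8' e).1⟩)]
  have := p k l; have := p k k'; have := p k l'; have := p l k'; have := p l l'; have := p k' l'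
  have := p8 k; have := p8 l; have := p8 k'; have := p8 l'
  rw [abs_le] at h h'
  omega

theorem exy : ∃ y : ℕ → ℤ → ℝ, (∀ β j, y β j ≠ 0 → |j| ≤ β) ∧ (∀ β j, |y β j| ≤ β) ∧
    ∀ q : ℤ →₀ ℚ, ∀ B, ∃ β ≥ B, ∀ j, y β j = q j := by
  classical
  obtain ⟨e, he⟩ := exists_surjective_nat (ℤ →₀ ℚ)
  refine ⟨fun β j => if |j| ≤ β ∧ |(e β.unpair.1 j : ℝ)| ≤ β then e β.unpair.1 j else 0,
    fun β j h => by_contra fun c => h (if_neg fun d => c d.1), fun β j => by
      beta_reduce; split_ifs with h; exacts [h.2, by simp], fun q B => ?_⟩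
  obtain ⟨n, rfl⟩ := he q
  obtain ⟨M, hM⟩ := exists_nat_ge (∑ j ∈ (e n).support, (|(j : ℝ)| + |(e n j : ℝ)|))
  have := Nat.right_le_pair n (B + M)
  refine ⟨n.pair (B + M), by omega, fun j => ?_⟩
  by_cases h : j ∈ (e n).support
  · have := ((single_le_sum (fun _ _ => by positivity) h).trans hM).trans
      (Nat.cast_le.2 (show M ≤ n.pair (B + M) by omega))
    simp only [Nat.unpair_pair]
    exact if_pos ⟨by exact_mod_cast (le_add_of_nonneg_right (abs_nonneg _)).trans this,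
      (le_add_of_nonneg_left (abs_nonneg _)).trans this⟩
  · simp [Finsupp.notMem_support_iff.1 h]

end Pool.Agent.H.MP_32446a_an
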