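import Pool.Agent.H.MP_32446a_an.A

set_option autoImplicit false
open Finset Filter Topology ZeroAtInfty

namespace Pool.Agent.H.MP_32446a_an

abbrev B := C₀(ℤ, ℝ)

def mk (g : ℤ → ℝ) (h : Tendsto g cofinite (𝓝 0)) : B :=
  ⟨⟨g, continuous_of_discreteTopology⟩, by rwa [cocompact_eq_cofinite]⟩

@[simp] theorem mk_apply (g : ℤ → ℝ) (h : Tendsto g cofinite (𝓝 0)) (j : ℤ) : mk g h j = g j := rfl

theorem tz (f : B) : Tendsto f cofinite (𝓝 0) := by simpa using zero_at_infty f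
theorem nle {f : B} {C : ℝ} (h : ∀ j, |f j| ≤ C) : ‖f‖ ≤ C :=
  (BoundedContinuousFunction.norm_le_of_nonempty (f := f.toBCF)).2 h
theorem len (f : B) (j : ℤ) : |f j| ≤ ‖f‖ := f.toBCF.norm_coe_le_norm j

noncomputable def ev (j : ℤ) : B →L[ℝ] ℝ := LinearMap.mkContinuous
  ⟨⟨fun f => f j, fun _ _ => rfl⟩, fun _ _ => rfl⟩ 1 fun f => by simpa using len f j

theorem sum_ap {ι : Type} (s : Finset ι) (z : ι → B) (j : ℤ) : (∑ l ∈ s, z l) j = ∑ l ∈ s, z l j :=
  map_sum (ev j) z s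

noncomputable def cut (P : Set ℤ) (f : B) : B := mk (P.indicator f) (squeeze_zero_norm
  (fun j => norm_indicator_le_norm_self _ _) (tendsto_zero_iff_norm_tendsto_zero.1 (tz f)))

noncomputable def fs (g : ℤ → ℝ) (s : Finset ℤ) (h : ∀ j, g j ≠ 0 → j ∈ s) : B :=
  mk g ((tendsto_const_nhds (x := (0 : ℝ))).congr'
    (eventually_cofinite.2 (s.finite_toSet.subset fun j e => h j (Ne.symm e))))

noncomputable def W (w : B) : B →L[ℝ] B := LinearMap.mkContinuous
  { toFun := fun f => mk (fun j => w j * f (j + 1)) (by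
      simpa using (tz w).mul ((tz f).comp (add_left_injective 1).tendsto_cofinite))
    map_add' := fun f g => by ext j; simp [mul_add]
    map_smul' := fun c f => by ext j; simp [mul_left_comm] } ‖w‖ fun f =>
      nle fun j => by simpa [abs_mul] using mul_le_mul (len w j) (len f _) (abs_nonneg _) (norm_nonneg _)

theorem W_apply (w f : B) (j : ℤ) : W w f j = w j * f (j + 1) := rfl

theorem dense (f : B) {ε : ℝ} (h : 0 < ε) : ∃ s : Finset ℤ, ‖f - cut s f‖ ≤ ε := by
  have := (tz f).eventually (Metric.ball_mem_nhds 0 h)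
  refine ⟨Set.Finite.toFinset this, nle fun j => ?_⟩
  by_cases e : |f j| < ε <;> simp [cut, e, h.le]; exact e.le

theorem W_compact (w : B) : IsCompactOperator (W w) := by
  refine isClosed_setOfPred_isCompactOperator.closure_subset (Metric.mem_closure_iff.2 fun ε h => ?_)
  obtain ⟨s, hs⟩ := dense w (half_pos h)
  refine ⟨∑ j ∈ s, (ev (j + 1)).smulRight (cut {j} w), (compactOperator (.id ℝ) B B).sum_mem fun j _ =>
    (isCompactOperator_of_locallyCompactSpace_rng (ContinuousLinearMap.toSpanSingleton ℝ (cut {j} w))).comp_clm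
      (ev (j + 1)), ?_⟩
  rw [dist_eq_norm]
  refine lt_of_le_of_lt (ContinuousLinearMap.opNorm_le_bound _ (half_pos h).le fun f => nle fun j => ?_)
    (half_lt_self h)
  refine le_trans (le_of_eq ?_) (mul_le_mul ((len _ j).trans hs) (len f (j + 1)) (abs_nonneg _) (half_pos h).le)
  rw [← abs_mul]; congr 1
  simp [W_apply, sum_ap, cut, Set.indicator_apply, ev, -Set.indicator_singleton]
  split_ifs <;> ring

theorem avg {ι : Type} {s : Finset ι} (hs : s.Nonempty) {z : ι → B} {C : ℝ} (h : ∀ l ∈ s, ‖z l‖ ≤ C)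
    (d : ∀ l ∈ s, ∀ l' ∈ s, l ≠ l' → ∀ j, z l j ≠ 0 → z l' j = 0) (F : Finset (B →L[ℝ] ℝ)) :
    ∃ l ∈ s, ∀ f ∈ F, #s * |f (z l)| ≤ (∑ f ∈ F, ‖f‖) * C := by
  have C0 := hs.elim fun l e => (norm_nonneg _).trans (h l e)
  obtain ⟨l, hl, e⟩ := exists_le_of_sum_le (f := fun l => #s * ∑ f ∈ F, |f (z l)|)
    (g := fun _ => (∑ f ∈ F, ‖f‖) * C) hs (by
      rw [← mul_sum, sum_const, nsmul_eq_mul, sum_comm, sum_mul]
      gcongr with f
      rw [show ∑ l ∈ s, |f (z l)| = f (∑ l ∈ s, (SignType.sign (f (z l)) : ℝ) • z l) by simp]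
      refine (f.le_of_opNorm_le_of_le le_rfl (nle fun j => ?_) |> (le_abs_self _).trans)
      rw [sum_ap]
      by_cases e : ∃ l ∈ s, z l j ≠ 0
      · obtain ⟨l, hl, e⟩ := e
        rw [sum_eq_single_of_mem l hl fun l' a c => by simp [d l hl l' a c.symm j e]]
        refine le_trans ?_ ((len _ j).trans (h l hl))
        cases SignType.sign (f (z l)) <;> simp
      · push Not at e
        rwa [sum_eq_zero fun l a => by simp [e l a], abs_zero])
  exact ⟨l, hl, fun f a => le_trans (by gcongr; exact single_le_sum (f := fun f : B →L[ℝ] ℝ => |f (z l)|) (fun _ _ => abs_nonneg _) a) e⟩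

theorem wt : Tendsto (fun j => (2 : ℝ) ^ (a j - a (j + 1))) cofinite (𝓝 0) := by
  refine (((tendsto_rpow_atTop_of_base_gt_one 2 one_lt_two).comp tendsto_intCast_atTop_atTop).comp
    a_top).inv_tendsto_atTop.congr fun j => ?_
  simp only [Function.comp, Pi.inv_apply, Real.rpow_intCast, ← zpow_neg, neg_sub]

noncomputable def T : B →L[ℝ] B := W (mk _ wt)

theorem T_pow (n : ℕ) (f : B) (j : ℤ) : (T ^ n) f j = 2 ^ (a j - a (j + n)) * f (j + n) := by
  induction n generalizing j with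
  | zero => simp
  | succ n ih =>
    rw [pow_succ', mul_apply_eq_comp, T, W_apply, ← T, ih, mk_apply, ← mul_assoc,
      ← zpow_add₀ two_ne_zero]
    simp [add_assoc, add_comm (1 : ℤ)]

theorem notsc (x : B) : ¬ Dense {y | ∃ (c : ℝ) (n : ℕ), y = c • (T ^ n) x} := fun h => by
  have p : ∀ j : ℤ, (0 : ℝ) < 2 ^ j := fun j => by positivity
  have key : ∀ j, ∀ ε > 0, ε ≤ 1 / 2 → ∃ c : ℝ, |x j| ≤ ε * (2 * 2 ^ (a (|j| + 1) + a j) * ‖x‖) ∧
      1 / 2 ≤ c * ‖x‖ := fun j ε e0 e1 => by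
    obtain ⟨_, hy, c, n, rfl⟩ := Metric.dense_iff.1 h (fs (Pi.single (|j| + 1) 1) {|j| + 1} (by
      simp +contextual [Pi.single_apply])) ε e0
    have H := fun i => (len _ i).trans_lt (mem_ball_iff_norm.1 hy)
    have h1 := H (|j| + 1); have h2 := H (j - n)
    have : j - n ≠ |j| + 1 := by have := le_abs_self j; omega
    simp only [ZeroAtInftyContinuousMap.sub_apply, ZeroAtInftyContinuousMap.smul_apply, T_pow] at h1 h2
    simp [fs, this, abs_of_pos, p] at h1 h2
    have h3 : 1 / 2 ≤ |c| * 2 ^ (a (|j| + 1) - a (|j| + 1 + n)) * ‖x‖ := by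
      have := abs_sub_abs_le_abs_sub 1 (c * (2 ^ (a (|j| + 1) - a (|j| + 1 + n)) * x (|j| + 1 + n)))
      rw [abs_sub_comm, abs_mul, abs_mul, abs_of_pos (p _), abs_one, ← mul_assoc |c|] at this
      nlinarith [mul_le_mul_of_nonneg_left (len x (|j| + 1 + n)) (mul_nonneg (abs_nonneg c)
        (p (a (|j| + 1) - a (|j| + 1 + n))).le)]
    refine ⟨_, ?_, h3⟩
    have m : (2 : ℝ) ^ (a (|j| + 1) - a (|j| + 1 + n)) ≤ 2 ^ (a (|j| + 1) + a j) * 2 ^ (a (j - n) - a j) := by
      rw [← zpow_add₀ two_ne_zero]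
      have := a_mono (show -(|j| + 1 + n) ≤ j - n by have := neg_abs_le j; omega)
      rw [a_neg] at this
      exact zpow_le_zpow_right₀ one_le_two (by omega)
    have h4 := h3.trans (mul_le_mul_of_nonneg_right (mul_le_mul_of_nonneg_left m (abs_nonneg c)) (norm_nonneg x))
    nlinarith [mul_le_mul_of_nonneg_right h4 (abs_nonneg (x j)), mul_le_mul_of_nonneg_right h2.le
      (mul_nonneg (p (a (|j| + 1) + a j)).le (norm_nonneg x))]
  have : x = 0 := by
    ext j
    refine abs_nonpos_iff.1 (show |x j| ≤ 0 from ge_of_tendsto (f := fun ε => ε * (2 * 2 ^ (a (|j| + 1) + a j) * ‖x‖))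
      (x := 𝓝[>] 0) (by
        simpa using (tendsto_nhdsWithin_of_tendsto_nhds (tendsto_id (x := 𝓝 (0 : ℝ)))).mul_const (2 * 2 ^ (a (|j| + 1) + a j) * ‖x‖)) ?_)
    filter_upwards [Ioc_mem_nhdsGT one_half_pos] with ε e using (key j ε e.1 e.2).elim fun _ => (·.1)
  obtain ⟨c, -, e⟩ := key 0 _ one_half_pos le_rfl
  simp [this] at e; linarith

end Pool.Agent.H.MP_32446a_an
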