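import Pool.Agent.H.MP_32446a_an.B

set_option autoImplicit false
open Finset Filter Topology ZeroAtInfty

namespace Pool.Agent.H.MP_32446a_an

theorem T_dense : DenseRange T := Metric.denseRange_iff.2 fun v ε h => by
  obtain ⟨s, hs⟩ := dense v (half_pos h)
  refine ⟨fs (fun j => 2 ^ (a j - a (j - 1)) * cut s v (j - 1)) (s.image (· + 1)) fun j e =>
    mem_image.2 ⟨j - 1, by_contra fun c => e (by simp [cut, c]), by simp⟩, ?_⟩
  rw [dist_eq_norm]
  refine lt_of_le_of_lt (le_trans (le_of_eq ?_) hs) (half_lt_self h)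
  congr 2; ext j
  simp [T, W_apply, fs, ← mul_assoc, ← zpow_add₀]

theorem sm {β : ℕ} {e : ℤ} (h : e ≤ -2 * β) : (β : ℝ) * 2 ^ e ≤ 2 ^ (-β : ℤ) := by
  have : (β : ℝ) ≤ 2 ^ (β : ℤ) := by exact_mod_cast Nat.lt_two_pow_self.le
  refine (mul_le_mul_of_nonneg_right this (by positivity)).trans ?_
  rw [← zpow_add₀ two_ne_zero]
  exact zpow_le_zpow_right₀ one_le_two (by omega)

section
variable {y : ℕ → ℤ → ℝ} (h1 : ∀ β j, y β j ≠ 0 → |j| ≤ β) (h2 : ∀ β j, |y β j| ≤ β)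

noncomputable def X (y : ℕ → ℤ → ℝ) (p : ℤ) : ℝ :=
  2 ^ (-μ (κ p.toNat)) * y (b (κ p.toNat)) (p - 8 ^ κ p.toNat)

include h2 in
theorem X_le (p e : ℤ) : |2 ^ e * X y p| ≤ b (κ p.toNat) * 2 ^ (e - μ (κ p.toNat)) := by
  rw [X, ← mul_assoc, ← zpow_add₀ two_ne_zero, abs_mul, abs_of_pos (by positivity), mul_comm, sub_eq_add_neg]
  exact mul_le_mul_of_nonneg_right (h2 _ _) (by positivity)

noncomputable def x : B := mk (fun p => 2 ^ a p * X y p) (squeeze_zero_norm (fun p => by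
  by_cases e : y (b (κ p.toNat)) (p - 8 ^ κ p.toNat) = 0
  · simp [X, e]; positivity
  refine (X_le h2 p _).trans ?_
  have h := (e0 (h1 _ _ e)).2
  rw [sub_add_cancel] at h
  have p0 : 0 ≤ p := by_contra fun c => e (abs_nonpos_iff.1 (by
    have := h2 (b (κ p.toNat)) (p - 8 ^ κ p.toNat)
    have h : b (κ p.toNat) = 0 := by
      rw [Int.toNat_eq_zero.2 (by omega)]; exact Nat.le_zero.1 ((b_le _).trans (by simp [κ]))
    simpa [h] using this))
  have := a_succ p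
  rw [max_eq_left (by omega)] at this
  rw [show a p - a (p + 1) = -b (κ p.toNat) by omega]
  refine sm (h.trans ?_)
  generalize b (κ p.toNat) = β
  rcases β with _ | β
  · simp
  · push_cast; nlinarith [show (0 : ℤ) ≤ β ^ 3 by positivity, show (0 : ℤ) ≤ β ^ 2 by positivity]) wt)

noncomputable def Y (β : ℕ) : B := fs (fun i => 2 ^ a i * y β i) (Icc (-β) β) fun j e =>
  mem_Icc.2 (abs_le.1 (h1 _ _ (right_ne_zero_of_mul e)))

noncomputable def w (l : ℕ) : B := (2 : ℝ) ^ μ l • (T ^ 8 ^ l) (x h1 h2) - Y h1 (b l)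

theorem w_le {l : ℕ} {i : ℤ} (h : w h1 h2 l i ≠ 0) : ∃ (k : ℕ) (j : ℤ), k = κ (i + 8 ^ l).toNat ∧ k ≠ l ∧ |j| ≤ b k ∧
    i = j + 8 ^ k - 8 ^ l ∧ |w h1 h2 l i| ≤ b k * 2 ^ (μ l - μ k + a i) := by
  have e : w h1 h2 l i = 2 ^ (μ l + a i) * X y (i + 8 ^ l) - 2 ^ a i * y (b l) i := by
    simp only [w, ZeroAtInftyContinuousMap.sub_apply, ZeroAtInftyContinuousMap.smul_apply, T_pow, x, Y, fs,
      mk_apply, smul_eq_mul, ← mul_assoc, ← zpow_add₀ (two_ne_zero' ℝ)]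
    push_cast; congr 3; ring
  have k : κ (i + 8 ^ l).toNat ≠ l := fun c => h (by
    rw [e, X, c, ← mul_assoc, ← zpow_add₀ two_ne_zero]; simp)
  have : y (b l) i = 0 := by_contra fun c => k (e0 (h1 _ _ c)).1
  rw [this, mul_zero, sub_zero] at e
  refine ⟨_, _, rfl, k, h1 _ _ (right_ne_zero_of_mul (right_ne_zero_of_mul (e ▸ h))), by ring, ?_⟩
  rw [e, sub_add_eq_add_sub]
  exact X_le h2 _ _

theorem main (β : ℕ) (F : Finset (B →L[ℝ] ℝ)) : ∃ l, b l = β ∧ ∀ f ∈ F,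
    |f (w h1 h2 l)| ≤ 2 * (∑ f ∈ F, ‖f‖) / (β + 1) := by
  have hb : ∀ l ∈ Ico (L β) (L (β + 1)), b l = β := fun l h =>
    le_antisymm (Nat.le_of_lt_succ (not_le.1 (mt le_b.1 (mem_Ico.1 h).2.not_ge))) (le_b.2 (mem_Ico.1 h).1)
  let P (l : ℕ) : Set ℤ := {i | b (κ (i + 8 ^ l).toNat) ≤ β}
  obtain ⟨l, hl, e⟩ := avg (s := Ico (L β) (L (β + 1))) (z := fun l => cut (P l) (w h1 h2 l))
    (C := G β (8 ^ L β)) (nonempty_Ico.2 (L_mono (by omega))) (fun l hl => nle fun i => by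
      by_cases e : cut (P l) (w h1 h2 l) i = 0
      · simp [e]
      obtain ⟨c, e⟩ := Set.indicator_apply_ne_zero.1 e
      obtain ⟨k, j, hk, kl, hj, hi, e⟩ := w_le h1 h2 e
      have c' : b k ≤ β := hk ▸ c
      refine (le_of_eq (congrArg _ (Set.indicator_of_mem c _))).trans (e.trans ?_)
      rw [G, Nat.cast_mul, Nat.cast_pow, ← zpow_natCast, Nat.cast_ofNat]
      refine mul_le_mul (Nat.cast_le.2 c') (zpow_le_zpow_right₀ one_le_two ?_) (by positivity) (by positivity)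
      rw [hi]
      rcases kl.lt_or_gt with kl | kl
      · simpa only [hb l hl] using e1 hj kl
      · have := e2 hj kl
        rw [hb l hl, le_antisymm c' (hb l hl ▸ b_mono kl.le)] at this
        refine this.trans ?_
        push_cast; linarith [show (0 : ℤ) ≤ β ^ 3 by positivity, show (0 : ℤ) ≤ β * 8 ^ L β by positivity])
    (fun l hl l' hl' ll i e => by_contra fun e' => by
      obtain ⟨c, e⟩ := Set.indicator_apply_ne_zero.1 e
      obtain ⟨c', e'⟩ := Set.indicator_apply_ne_zero.1 e'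
      obtain ⟨k, j, hk, kl, hj, hi, -⟩ := w_le h1 h2 e
      obtain ⟨k', j', hk', kl', hj', hi', -⟩ := w_le h1 h2 e'
      have d : b k ≤ β := hk ▸ c
      have d' : b k' ≤ β := hk' ▸ c'
      have := b_le l; have := b_le l'; have := hb l hl; have := hb l' hl'
      rw [abs_le] at hj hj'
      exact sid (d := j - j') kl kl' ll (abs_le.2 (by omega)) (abs_le.2 (by omega)) (by omega)) F
  refine ⟨l, hb l hl, fun f hf => ?_⟩
  have t : ‖w h1 h2 l - cut (P l) (w h1 h2 l)‖ ≤ 1 / (β + 1) := nle fun i => by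
    by_cases c : i ∈ P l
    · simp [cut, c]; positivity
    by_cases e : w h1 h2 l i = 0
    · simp [cut, c, e]; positivity
    obtain ⟨k, j, hk, kl, hj, hi, e⟩ := w_le h1 h2 e
    have c' : β < b k := hk ▸ not_le.1 c
    have := e2 hj (not_le.1 fun c => c'.not_ge (hb l hl ▸ b_mono c))
    rw [← hi, hb l hl] at this
    simp only [cut, ZeroAtInftyContinuousMap.sub_apply, mk_apply, Set.indicator_of_notMem c, sub_zero]
    refine e.trans ((sm (this.trans ?_)).trans ?_)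
    · obtain ⟨d, hd⟩ := Nat.exists_eq_add_of_lt c'
      rw [hd]; push_cast
      have : (0 : ℤ) ≤ β := by positivity
      have : (0 : ℤ) ≤ d := by positivity
      nlinarith [show (0 : ℤ) ≤ d ^ 3 by positivity, show (0 : ℤ) ≤ β * d ^ 2 by positivity,
        show (0 : ℤ) ≤ β ^ 2 * d by positivity, show (0 : ℤ) ≤ β * d by positivity, sq_nonneg (β : ℤ), sq_nonneg (d : ℤ)]
    · rw [zpow_neg, zpow_natCast, one_div]
      exact inv_anti₀ (by positivity) (by exact_mod_cast (Nat.succ_le_of_lt c').trans Nat.lt_two_pow_self.le)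
  have n := single_le_sum (f := fun f : B →L[ℝ] ℝ => ‖f‖) (fun f _ => f.opNorm_nonneg) hf
  have t := f.le_of_opNorm_le_of_le n t
  have e := e f hf
  rw [Nat.card_Ico, L, Nat.add_sub_cancel_left] at e
  rw [map_sub, Real.norm_eq_abs, mul_one_div, le_div_iff₀ (by positivity)] at t
  rw [le_div_iff₀ (by positivity)]
  have g : (0 : ℝ) ≤ G β (8 ^ L β) := by positivity
  have : |f (cut (P l) (w h1 h2 l))| * (β + 1) ≤ ∑ f ∈ F, ‖f‖ := by
    push_cast at e
    nlinarith [f.opNorm_nonneg.trans n]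
  nlinarith [abs_sub_abs_le_abs_sub (f (w h1 h2 l)) (f (cut (P l) (w h1 h2 l))), β.cast_nonneg (α := ℝ)]
end

theorem wk : ∃ x : B, ∀ v : B, ∀ F : Finset (B →L[ℝ] ℝ), ∀ ε > 0, ∃ (c : ℝ) (n : ℕ), ∀ f ∈ F,
    |f (c • (T ^ n) x) - f v| ≤ ε := by
  obtain ⟨y, h1, h2, h3⟩ := exy
  refine ⟨x h1 h2, fun v F ε he => ?_⟩
  have M0 : 0 ≤ ∑ f ∈ F, ‖f‖ := sum_nonneg fun f _ => f.opNorm_nonneg
  obtain ⟨δ, d0, hd⟩ : ∃ δ > 0, 3 * (∑ f ∈ F, ‖f‖) * δ ≤ ε :=
    ⟨ε / (3 * (∑ f ∈ F, ‖f‖) + 1), by positivity, by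
      rw [← mul_div_assoc, div_le_iff₀ (by positivity)]; nlinarith⟩
  obtain ⟨s, hs⟩ := dense v d0
  choose q hq using fun i => exists_rat_near (v i / 2 ^ a i) (show 0 < δ / 2 ^ a i by positivity)
  obtain ⟨N, hN⟩ := exists_nat_one_div_lt d0
  obtain ⟨β, hβ, e⟩ := h3 (Finsupp.onFinset s (fun i => if i ∈ s then q i else 0) fun i h =>
    by_contra fun c => h (if_neg c)) N
  obtain ⟨l, hl, H⟩ := main h1 h2 β F
  refine ⟨2 ^ μ l, 8 ^ l, fun f hf => ?_⟩
  have t : ‖Y h1 β - v‖ ≤ δ := nle fun i => by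
    by_cases c : i ∈ s
    · have := hq i
      rw [lt_div_iff₀ (by positivity), ← abs_of_pos (show (0 : ℝ) < 2 ^ a i by positivity), ← abs_mul,
        abs_of_pos (show (0 : ℝ) < 2 ^ a i by positivity), sub_mul, div_mul_cancel₀ _ (by positivity),
        abs_sub_comm, mul_comm] at this
      simpa [Y, fs, e, c] using this.le
    · simpa [Y, fs, e, c, cut] using (len _ i).trans hs
  have t := f.le_of_opNorm_le_of_le (single_le_sum (f := fun f : B →L[ℝ] ℝ => ‖f‖)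
    (fun f _ => f.opNorm_nonneg) hf) t
  have H := H f hf
  rw [w, hl, map_sub] at H
  rw [map_sub, Real.norm_eq_abs] at t
  have : 1 / (β + 1 : ℝ) ≤ δ := le_trans (by gcongr) hN.le
  rw [div_eq_mul_one_div] at H
  linarith [abs_sub_le (f ((2 : ℝ) ^ μ l • (T ^ 8 ^ l) (x h1 h2))) (f (Y h1 β)) (f v),
    mul_le_mul_of_nonneg_left this M0]

end Pool.Agent.H.MP_32446a_an
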